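import Mathlib

/-!
# Intersection graphs of connected subgraphs of subdivisions of a fixed graph

For a finite graph `Y` having a connected subgraph with more edges than vertices (that is, a
component containing two independent cycles) every finite group is the automorphism group of an
intersection graph of connected subgraphs of a subdivision of `Y`.
-/

namespace Pool.Agent.Results.MP_f0827e_co.YGraphsTwoCycles

universe u

/-- Vertices of the subdivision of `Y` in which the edge `ab` (`a < b`) gets `len a b` new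
internal vertices: the old vertices, and for each edge `ab` with `a < b` of `Y` the new vertices
`new a b i` with `i < len a b`. -/
inductive SubVertex {V : Type} [LinearOrder V] (Y : SimpleGraph V) (len : V → V → ℕ) : Type
  | old (a : V) : SubVertex Y len
  | new (a b : V) (i : ℕ) (h : a < b ∧ Y.Adj a b ∧ i < len a b) : SubVertex Y len

/-- One step along a subdivided edge `ab` (`a < b`), walked from `a` to `b`:
`a, new a b 0, ..., new a b (len a b - 1), b` (and `a, b` when `len a b = 0`). -/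
def Step {V : Type} [LinearOrder V] (Y : SimpleGraph V) (len : V → V → ℕ) :
    SubVertex Y len → SubVertex Y len → Prop
  | .old a, .old b => a < b ∧ Y.Adj a b ∧ len a b = 0
  | .old a, .new a' _ i _ => a = a' ∧ i = 0
  | .new a b i _, .new a' b' j _ => a = a' ∧ b = b' ∧ j = i + 1
  | .new a b i _, .old c => c = b ∧ i + 1 = len a b

/-- The subdivision of `Y` in which each edge `ab` (`a < b`) is replaced by a path with
`len a b` internal vertices, all of them new. -/
def subdivision {V : Type} [LinearOrder V] (Y : SimpleGraph V) (len : V → V → ℕ) :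
    SimpleGraph (SubVertex Y len) :=
  SimpleGraph.fromRel (Step Y len)

/-- `X` belongs to the class `G(Y)`: it is the intersection graph of a family of connected
subgraphs of a subdivision of `Y`, indexed by the vertices of `X`. -/
def IsIntersectionGraphOver {V : Type} [LinearOrder V] (Y : SimpleGraph V)
    {U : Type u} (X : SimpleGraph U) : Prop :=
  ∃ (len : V → V → ℕ) (S : U → (subdivision Y len).Subgraph),
    (∀ x, (S x).Connected) ∧
    ∀ x y, x ≠ y → (X.Adj x y ↔ ((S x).verts ∩ (S y).verts).Nonempty)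

section construction

variable (Γ : Type u) [Group Γ]

/-- The vertices of the intersection graph attached to the group `Γ` with `n` elements. -/
inductive Pt (n : ℕ) : Type u
  | a1 (g : Γ) : Pt n
  | a2 (g : Γ) : Pt n
  | b (g c : Γ) : Pt n
  | t (i : Fin n) : Pt n
  | z : Pt n
  | r : Pt n
  | r' : Pt n

variable {Γ} {n : ℕ} (e : Γ ≃ Fin n)

/-- The (directed) adjacency of the intersection graph. -/
def Rel : Pt Γ n → Pt Γ n → Prop
  | .a1 _, .z => True
  | .a1 g, .b g' _ => g ≠ g'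
  | .a2 h, .b g c => h ≠ g * c
  | .t i, .b _ c => i ≤ e c
  | .t _, .r => True
  | .r, .r' => True
  | .r, .b _ _ => True
  | .z, .b _ _ => True
  | .b _ _, .b _ _ => True
  | _, _ => False

/-- The intersection graph attached to `Γ`. -/
def X : SimpleGraph (Pt Γ n) := SimpleGraph.fromRel (Rel e)


open Pt

@[simp] lemma X_a1_a1 (g h : Γ) : ¬ (X e).Adj (a1 g) (a1 h) := by simp [X, Rel]
@[simp] lemma X_a1_a2 (g h : Γ) : ¬ (X e).Adj (a1 g) (a2 h) := by simp [X, Rel]
@[simp] lemma X_a2_a1 (g h : Γ) : ¬ (X e).Adj (a2 g) (a1 h) := by simp [X, Rel]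
@[simp] lemma X_a2_a2 (g h : Γ) : ¬ (X e).Adj (a2 g) (a2 h) := by simp [X, Rel]
@[simp] lemma X_a1_b (g h c : Γ) : (X e).Adj (a1 g) (b h c) ↔ g ≠ h := by simp [X, Rel]
@[simp] lemma X_b_a1 (g h c : Γ) : (X e).Adj (b h c) (a1 g) ↔ g ≠ h := by simp [X, Rel]
@[simp] lemma X_a2_b (g h c : Γ) : (X e).Adj (a2 g) (b h c) ↔ g ≠ h * c := by simp [X, Rel]
@[simp] lemma X_b_a2 (g h c : Γ) : (X e).Adj (b h c) (a2 g) ↔ g ≠ h * c := by simp [X, Rel]
@[simp] lemma X_a1_t (g : Γ) (i : Fin n) : ¬ (X e).Adj (a1 g) (t i) := by simp [X, Rel]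
@[simp] lemma X_t_a1 (g : Γ) (i : Fin n) : ¬ (X e).Adj (t i) (a1 g) := by simp [X, Rel]
@[simp] lemma X_a2_t (g : Γ) (i : Fin n) : ¬ (X e).Adj (a2 g) (t i) := by simp [X, Rel]
@[simp] lemma X_t_a2 (g : Γ) (i : Fin n) : ¬ (X e).Adj (t i) (a2 g) := by simp [X, Rel]
@[simp] lemma X_a1_z (g : Γ) : (X e).Adj (a1 g) z := by simp [X, Rel]
@[simp] lemma X_z_a1 (g : Γ) : (X e).Adj z (a1 g) := by simp [X, Rel]
@[simp] lemma X_a2_z (g : Γ) : ¬ (X e).Adj (a2 g) z := by simp [X, Rel]
@[simp] lemma X_z_a2 (g : Γ) : ¬ (X e).Adj z (a2 g) := by simp [X, Rel]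
@[simp] lemma X_a1_r (g : Γ) : ¬ (X e).Adj (a1 g) r := by simp [X, Rel]
@[simp] lemma X_r_a1 (g : Γ) : ¬ (X e).Adj r (a1 g) := by simp [X, Rel]
@[simp] lemma X_a2_r (g : Γ) : ¬ (X e).Adj (a2 g) r := by simp [X, Rel]
@[simp] lemma X_r_a2 (g : Γ) : ¬ (X e).Adj r (a2 g) := by simp [X, Rel]
@[simp] lemma X_a1_r' (g : Γ) : ¬ (X e).Adj (a1 g) r' := by simp [X, Rel]
@[simp] lemma X_r'_a1 (g : Γ) : ¬ (X e).Adj r' (a1 g) := by simp [X, Rel]
@[simp] lemma X_a2_r' (g : Γ) : ¬ (X e).Adj (a2 g) r' := by simp [X, Rel]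
@[simp] lemma X_r'_a2 (g : Γ) : ¬ (X e).Adj r' (a2 g) := by simp [X, Rel]
@[simp] lemma X_b_b (g h c d : Γ) : (X e).Adj (b g c) (b h d) ↔ ¬ (g = h ∧ c = d) := by
  simp [X, Rel]
@[simp] lemma X_b_t (g c : Γ) (i : Fin n) : (X e).Adj (b g c) (t i) ↔ i ≤ e c := by
  simp [X, Rel]
@[simp] lemma X_t_b (g c : Γ) (i : Fin n) : (X e).Adj (t i) (b g c) ↔ i ≤ e c := by
  simp [X, Rel]
@[simp] lemma X_b_z (g c : Γ) : (X e).Adj (b g c) z := by simp [X, Rel]
@[simp] lemma X_z_b (g c : Γ) : (X e).Adj z (b g c) := by simp [X, Rel]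
@[simp] lemma X_b_r (g c : Γ) : (X e).Adj (b g c) r := by simp [X, Rel]
@[simp] lemma X_r_b (g c : Γ) : (X e).Adj r (b g c) := by simp [X, Rel]
@[simp] lemma X_b_r' (g c : Γ) : ¬ (X e).Adj (b g c) r' := by simp [X, Rel]
@[simp] lemma X_r'_b (g c : Γ) : ¬ (X e).Adj r' (b g c) := by simp [X, Rel]
@[simp] lemma X_t_t (i j : Fin n) : ¬ (X e).Adj (t i) (t j) := by simp [X, Rel]
@[simp] lemma X_t_z (i : Fin n) : ¬ (X e).Adj (t i) z := by simp [X, Rel]
@[simp] lemma X_z_t (i : Fin n) : ¬ (X e).Adj z (t i) := by simp [X, Rel]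
@[simp] lemma X_t_r (i : Fin n) : (X e).Adj (t i) r := by simp [X, Rel]
@[simp] lemma X_r_t (i : Fin n) : (X e).Adj r (t i) := by simp [X, Rel]
@[simp] lemma X_t_r' (i : Fin n) : ¬ (X e).Adj (t i) r' := by simp [X, Rel]
@[simp] lemma X_r'_t (i : Fin n) : ¬ (X e).Adj r' (t i) := by simp [X, Rel]
@[simp] lemma X_z_z : ¬ (X e).Adj z z := by simp
@[simp] lemma X_z_r : ¬ (X e).Adj z r := by simp [X, Rel]
@[simp] lemma X_r_z : ¬ (X e).Adj r z := by simp [X, Rel]
@[simp] lemma X_z_r' : ¬ (X e).Adj z r' := by simp [X, Rel]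
@[simp] lemma X_r'_z : ¬ (X e).Adj r' z := by simp [X, Rel]
@[simp] lemma X_r_r' : (X e).Adj r r' := by simp [X, Rel]
@[simp] lemma X_r'_r : (X e).Adj r' r := by simp [X, Rel]

/-- Left multiplication on the vertices. -/
def act (c : Γ) : Pt Γ n → Pt Γ n
  | .a1 g => .a1 (c * g)
  | .a2 g => .a2 (c * g)
  | .b g d => .b (c * g) d
  | .t i => .t i
  | .z => .z
  | .r => .r
  | .r' => .r'

lemma act_act (c d : Γ) (x : Pt Γ n) : act c (act d x) = act (c * d) x := by
  cases x <;> simp [act, mul_assoc]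

lemma act_one (x : Pt Γ n) : act 1 x = x := by
  cases x <;> simp [act]

/-- Left multiplication as an automorphism of the graph. -/
def actIso (c : Γ) : X e ≃g X e where
  toFun := act c
  invFun := act c⁻¹
  left_inv x := by rw [act_act, inv_mul_cancel, act_one]
  right_inv x := by rw [act_act, mul_inv_cancel, act_one]
  map_rel_iff' := by
    intro x y
    cases x <;> cases y <;> simp [act, mul_assoc]

/-- The left multiplication homomorphism. -/
def actHom : Γ →* (X e ≃g X e) where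
  toFun := actIso e
  map_one' := by
    ext x
    exact act_one x
  map_mul' c d := by
    ext x
    exact (act_act c d x).symm

lemma actHom_injective : Function.Injective (actHom e) := by
  intro c d h
  have h' : actIso e c (a1 1) = actIso e d (a1 1) := congrArg (fun f : X e ≃g X e => f (a1 1)) h
  have h'' : act c (a1 1 : Pt Γ n) = act d (a1 1) := h'
  simpa [act] using h''

section auto

variable [Nontrivial Γ] (φ : X e ≃g X e)

lemma map_r' : φ r' = r' := by
  obtain ⟨k, hk⟩ := exists_ne (1 : Γ)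
  have leaf : ∀ y y', (X e).Adj (φ r') y → (X e).Adj (φ r') y' → y = y' := by
    intro y y' hy hy'
    obtain ⟨x, rfl⟩ := φ.surjective y
    obtain ⟨x', rfl⟩ := φ.surjective y'
    rw [φ.map_adj_iff] at hy hy'
    cases x <;> simp at hy
    cases x' <;> simp at hy'
    rfl
  cases h : φ r' with
  | a1 g =>
    rw [h] at leaf
    have := leaf z (b (g * k) 1) (by simp) (by simpa using hk)
    simp at this
  | a2 g =>
    rw [h] at leaf
    have := leaf (b (g * k) 1) (b g k) (by simpa using hk) (by simpa using hk)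
    simp at this
    exact absurd this.1 hk
  | b g c =>
    rw [h] at leaf
    have := leaf z r (by simp) (by simp)
    simp at this
  | t i =>
    rw [h] at leaf
    have := leaf r (b 1 (e.symm i)) (by simp) (by simp)
    simp at this
  | z =>
    rw [h] at leaf
    have := leaf (a1 1) (b 1 1) (by simp) (by simp)
    simp at this
  | r =>
    rw [h] at leaf
    have := leaf r' (b 1 1) (by simp) (by simp)
    simp at this
  | r' => rfl

lemma map_r : φ r = r := by
  have h : (X e).Adj (φ r') (φ r) := by rw [φ.map_adj_iff]; simp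
  rw [map_r'] at h
  cases h' : φ r <;> rw [h'] at h <;> simp at h

lemma adj_r (x : Pt Γ n) : (X e).Adj r (φ x) ↔ (X e).Adj r x := by
  conv_lhs => rw [← map_r e φ]
  rw [φ.map_adj_iff]

lemma map_b (g c : Γ) : ∃ g' c', φ (b g c) = b g' c' := by
  have h1 : (X e).Adj r (φ (b g c)) := by rw [adj_r]; simp
  have h2 : φ (b g c) ≠ r' := by
    intro h
    rw [← map_r' e φ] at h
    have := φ.injective h
    simp at this
  have h3 : (X e).Adj (φ (b g c)) (φ z) := by rw [φ.map_adj_iff]; simp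
  have h4 : ¬ (X e).Adj r (φ z) := by rw [adj_r]; simp
  have h5 : φ z ≠ r := by
    intro h
    rw [← map_r e φ] at h
    have := φ.injective h
    simp at this
  cases h : φ (b g c) with
  | b g' c' => exact ⟨g', c', rfl⟩
  | t i =>
    exfalso
    rw [h] at h3
    cases h' : φ z <;> rw [h'] at h3 h4 h5 <;> simp at h3 h4 h5
  | a1 _ => rw [h] at h1; simp at h1
  | a2 _ => rw [h] at h1; simp at h1
  | z => rw [h] at h1; simp at h1
  | r => rw [h] at h1; simp at h1
  | r' => exact absurd h h2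

lemma map_t (i : Fin n) : ∃ j, φ (t i) = t j := by
  have h1 : (X e).Adj r (φ (t i)) := by rw [adj_r]; simp
  have h2 : φ (t i) ≠ r' := by
    intro h
    rw [← map_r' e φ] at h
    have := φ.injective h
    simp at this
  cases h : φ (t i) with
  | t j => exact ⟨j, rfl⟩
  | b g c =>
    exfalso
    obtain ⟨g', c', h'⟩ := map_b e φ.symm g c
    rw [← h] at h'
    simp at h'
  | a1 _ => rw [h] at h1; simp at h1
  | a2 _ => rw [h] at h1; simp at h1
  | z => rw [h] at h1; simp at h1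
  | r => rw [h] at h1; simp at h1
  | r' => exact absurd h h2

lemma map_z : φ z = z := by
  have h4 : ¬ (X e).Adj r (φ z) := by rw [adj_r]; simp
  have h5 : φ z ≠ r := by
    intro h
    rw [← map_r e φ] at h
    have := φ.injective h
    simp at this
  have h6 : ∀ g c, (X e).Adj (φ z) (b g c) := by
    intro g c
    obtain ⟨g', c', h'⟩ := map_b e φ.symm g c
    have : b g c = φ (b g' c') := by rw [← h']; simp
    rw [this, φ.map_adj_iff]
    simp
  cases h : φ z with
  | z => rfl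
  | a1 g => rw [h] at h6; simpa using h6 g 1
  | a2 g => rw [h] at h6; simpa using h6 g 1
  | t i => rw [h] at h4; simp at h4
  | b g c => rw [h] at h4; simp at h4
  | r => exact absurd h h5
  | r' => rw [h] at h4; simp at h4

lemma map_a1 (g : Γ) : ∃ g', φ (a1 g) = a1 g' := by
  have h1 : (X e).Adj (φ z) (φ (a1 g)) := by rw [φ.map_adj_iff]; simp
  rw [map_z] at h1
  have h4 : ¬ (X e).Adj r (φ (a1 g)) := by rw [adj_r]; simp
  cases h : φ (a1 g) with
  | a1 g' => exact ⟨g', rfl⟩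
  | z => rw [h] at h1; simp at h1
  | a2 g => rw [h] at h1; simp at h1
  | t i => rw [h] at h1; simp at h1
  | b g c => rw [h] at h4; simp at h4
  | r => rw [h] at h1; simp at h1
  | r' => rw [h] at h1; simp at h1

lemma map_a2 (g : Γ) : ∃ g', φ (a2 g) = a2 g' := by
  have h4 : ¬ (X e).Adj r (φ (a2 g)) := by rw [adj_r]; simp
  have ne : ∀ x, x ≠ a2 g → φ x = x → φ (a2 g) ≠ x := by
    intro x hx hφ h
    rw [← hφ] at h
    exact hx (φ.injective h).symm
  cases h : φ (a2 g) with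
  | a2 g' => exact ⟨g', rfl⟩
  | z => exact absurd h (ne z (by simp) (map_z e φ))
  | a1 g' =>
    exfalso
    obtain ⟨g'', h'⟩ := map_a1 e φ.symm g'
    rw [← h] at h'
    simp at h'
  | t i => rw [h] at h4; simp at h4
  | b g c => rw [h] at h4; simp at h4
  | r => exact absurd h (ne r (by simp) (map_r e φ))
  | r' => rw [h] at h4; simp at h4

lemma t_mono {i j i' j' : Fin n} (hi : φ (t i) = t i') (hj : φ (t j) = t j') (hij : i ≤ j) :
    i' ≤ j' := by
  obtain ⟨g', c', h'⟩ := map_b e φ.symm 1 (e.symm j')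
  have hb : φ (b g' c') = b 1 (e.symm j') := by rw [← h']; simp
  have h1 : (X e).Adj (φ (t j)) (φ (b g' c')) := by rw [hj, hb]; simp
  rw [φ.map_adj_iff] at h1
  have h2 : (X e).Adj (t i) (b g' c') := by
    simp only [X_t_b] at h1 ⊢
    exact hij.trans h1
  rw [← φ.map_adj_iff, hi, hb] at h2
  simpa using h2

lemma le_of_map_t {i j : Fin n} (h : φ (t i) = t j) : i ≤ j := by
  choose σ hσ using map_t e φ
  have hm : Monotone σ := fun a b hab => t_mono e φ (hσ a) (hσ b) hab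
  have hi : Function.Injective σ := by
    intro a b hab
    have : φ (t a) = φ (t b) := by rw [hσ, hσ, hab]
    simpa using φ.injective this
  have hs : StrictMono σ := hm.strictMono_of_injective hi
  have := hs.le_apply (x := i)
  have h' := hσ i
  rw [h] at h'
  simp only [Pt.t.injEq] at h'
  rwa [← h'] at this

lemma map_t_eq (i : Fin n) : φ (t i) = t i := by
  obtain ⟨j, hj⟩ := map_t e φ i
  have h1 := le_of_map_t e φ hj
  have h2 : φ.symm (t j) = t i := by rw [← hj]; simp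
  have h3 := le_of_map_t e φ.symm h2
  rw [hj, le_antisymm h1 h3]

lemma map_b_snd {g c g' c' : Γ} (h : φ (b g c) = b g' c') : c' = c := by
  have key : ∀ i, i ≤ e c ↔ i ≤ e c' := by
    intro i
    have : (X e).Adj (φ (t i)) (φ (b g c)) ↔ (X e).Adj (t i) (b g c) := φ.map_adj_iff
    rw [map_t_eq, h] at this
    simp only [X_t_b] at this
    exact this.symm
  apply e.injective
  exact le_antisymm ((key _).2 le_rfl) ((key _).1 le_rfl)

lemma exists_act : ∃ c : Γ, actHom e c = φ := by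
  choose φ1 h1 using map_a1 e φ
  choose φ2 h2 using map_a2 e φ
  have hb : ∀ g c, φ (b g c) = b (φ1 g) c := by
    intro g c
    obtain ⟨g', c', h'⟩ := map_b e φ g c
    have hc := map_b_snd e φ h'
    subst hc
    have : ¬ (X e).Adj (φ (a1 g)) (φ (b g c')) := by rw [φ.map_adj_iff]; simp
    rw [h1, h'] at this
    simp only [X_a1_b, ne_eq, not_not] at this
    rw [h', this]
  have h12 : ∀ g c, φ2 (g * c) = φ1 g * c := by
    intro g c
    have : ¬ (X e).Adj (φ (a2 (g * c))) (φ (b g c)) := by rw [φ.map_adj_iff]; simp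
    rw [h2, hb] at this
    simpa only [X_a2_b, ne_eq, not_not] using this
  have e2 : ∀ g, φ2 g = φ1 1 * g := fun g => by simpa using h12 1 g
  have e1 : ∀ g, φ1 g = φ1 1 * g := fun g => by
    have := h12 g 1
    rw [mul_one, mul_one] at this
    rw [← this, e2]
  refine ⟨φ1 1, ?_⟩
  ext x
  change act (φ1 1) x = φ x
  cases x with
  | a1 g => rw [h1, e1 g]; rfl
  | a2 g => rw [h2, e2 g]; rfl
  | b g c => rw [hb, e1 g]; rfl
  | t i => rw [map_t_eq]; rfl
  | z => rw [map_z]; rfl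
  | r => rw [map_r]; rfl
  | r' => rw [map_r']; rfl

end auto

/-- The automorphism group of the graph attached to a nontrivial group. -/
lemma aut_X [Nontrivial Γ] : Nonempty ((X e ≃g X e) ≃* Γ) :=
  ⟨(MulEquiv.ofBijective (actHom e)
    ⟨actHom_injective e, fun φ => exists_act e φ⟩).symm⟩

end construction


section coding

variable {U : Type u} (F : SimpleGraph U)

/-- The vertices of the split graph coding the graph `F`: its vertices, its edges, its flags
(vertex on an edge), and one more vertex. -/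
inductive QV : Type u
  | u (a : U) : QV
  | e (x : F.edgeSet) : QV
  | d (a : U) (x : F.edgeSet) (h : a ∈ (x : Sym2 U)) : QV
  | z : QV

/-- The (directed) adjacency of the graph coding `F`. -/
def QRel : QV F → QV F → Prop
  | .u _, .z => True
  | .u a, .d b _ _ => a ≠ b
  | .e x, .d _ y _ => x ≠ y
  | .d _ _ _, .z => True
  | .d _ _ _, .d _ _ _ => True
  | _, _ => False

/-- The graph coding `F`. -/
def Q : SimpleGraph (QV F) := SimpleGraph.fromRel (QRel F)

variable {F}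

@[simp] lemma Q_u_u (a b : U) : ¬ (Q F).Adj (.u a) (.u b) := by simp [Q, QRel]
@[simp] lemma Q_u_e (a : U) (x : F.edgeSet) : ¬ (Q F).Adj (.u a) (.e x) := by simp [Q, QRel]
@[simp] lemma Q_e_u (a : U) (x : F.edgeSet) : ¬ (Q F).Adj (.e x) (.u a) := by simp [Q, QRel]
@[simp] lemma Q_e_e (x y : F.edgeSet) : ¬ (Q F).Adj (.e x) (.e y) := by simp [Q, QRel]
@[simp] lemma Q_u_z (a : U) : (Q F).Adj (.u a) .z := by simp [Q, QRel]
@[simp] lemma Q_z_u (a : U) : (Q F).Adj .z (.u a) := by simp [Q, QRel]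
@[simp] lemma Q_e_z (x : F.edgeSet) : ¬ (Q F).Adj (.e x) .z := by simp [Q, QRel]
@[simp] lemma Q_z_e (x : F.edgeSet) : ¬ (Q F).Adj .z (.e x) := by simp [Q, QRel]
@[simp] lemma Q_z_z : ¬ (Q F).Adj .z .z := by simp
@[simp] lemma Q_u_d (a b : U) (x : F.edgeSet) (h) : (Q F).Adj (.u a) (.d b x h) ↔ a ≠ b := by
  simp [Q, QRel]
@[simp] lemma Q_d_u (a b : U) (x : F.edgeSet) (h) : (Q F).Adj (.d b x h) (.u a) ↔ a ≠ b := by
  simp [Q, QRel]
@[simp] lemma Q_e_d (b : U) (x y : F.edgeSet) (h) : (Q F).Adj (.e y) (.d b x h) ↔ y ≠ x := by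
  simp [Q, QRel]
@[simp] lemma Q_d_e (b : U) (x y : F.edgeSet) (h) : (Q F).Adj (.d b x h) (.e y) ↔ y ≠ x := by
  simp [Q, QRel]
@[simp] lemma Q_d_z (b : U) (x : F.edgeSet) (h) : (Q F).Adj (.d b x h) .z := by
  simp [Q, QRel]
@[simp] lemma Q_z_d (b : U) (x : F.edgeSet) (h) : (Q F).Adj .z (.d b x h) := by
  simp [Q, QRel]
@[simp] lemma Q_d_d (a b : U) (x y : F.edgeSet) (h h') :
    (Q F).Adj (.d a x h) (.d b y h') ↔ ¬ (a = b ∧ x = y) := by
  simp [Q, QRel]

/-- The action of an automorphism of `F`. -/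
def qfun (φ : F ≃g F) : QV F → QV F
  | .u a => .u (φ a)
  | .e x => .e (φ.mapEdgeSet x)
  | .d a x h => .d (φ a) (φ.mapEdgeSet x) (Sym2.mem_map.2 ⟨a, h, rfl⟩)
  | .z => .z

lemma qfun_comp (φ ψ : F ≃g F) (x : QV F) : qfun φ (qfun ψ x) = qfun (φ * ψ) x := by
  have key : ∀ y : F.edgeSet, φ.mapEdgeSet (ψ.mapEdgeSet y) = (φ * ψ).mapEdgeSet y := by
    rintro ⟨y, hy⟩
    induction y with
    | h a b => rfl
  cases x with
  | u a => rfl
  | e x => simp only [qfun, key]
  | d a x h => simp only [qfun, key]; rfl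
  | z => rfl

lemma qfun_one (x : QV F) : qfun 1 x = x := by
  have key : ∀ y : F.edgeSet, (1 : F ≃g F).mapEdgeSet y = y := by
    rintro ⟨y, hy⟩
    induction y with
    | h a b => rfl
  cases x with
  | u a => rfl
  | e x => simp only [qfun, key]
  | d a x h => simp only [qfun, key]; rfl
  | z => rfl

/-- The automorphism of the coding graph attached to an automorphism of `F`. -/
def qiso (φ : F ≃g F) : Q F ≃g Q F where
  toFun := qfun φ
  invFun := qfun φ⁻¹
  left_inv x := by rw [qfun_comp, inv_mul_cancel, qfun_one]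
  right_inv x := by rw [qfun_comp, mul_inv_cancel, qfun_one]
  map_rel_iff' := by
    intro x y
    have key : ∀ x y : F.edgeSet,
        SimpleGraph.Hom.mapEdgeSet (RelIso.toRelEmbedding φ).toRelHom x =
          SimpleGraph.Hom.mapEdgeSet (RelIso.toRelEmbedding φ).toRelHom y ↔ x = y :=
      fun x y => φ.mapEdgeSet.injective.eq_iff
    cases x <;> cases y <;> simp [qfun, key]

/-- The homomorphism `Aut F → Aut (Q F)`. -/
def qhom : (F ≃g F) →* (Q F ≃g Q F) where
  toFun := qiso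
  map_one' := by
    ext x
    exact qfun_one x
  map_mul' c d := by
    ext x
    exact (qfun_comp c d x).symm

lemma qhom_injective : Function.Injective (qhom (F := F)) := by
  intro φ ψ h
  ext a
  have h' : qiso φ (.u a) = qiso ψ (.u a) := congrArg (fun f : Q F ≃g Q F => f (.u a)) h
  have h'' : (QV.u (φ a) : QV F) = .u (ψ a) := h'
  simpa using h''

/-- At most two other vertices are not adjacent to `v`. -/
def Few (v : QV F) : Prop := ∃ p q, ∀ w, w ≠ v → ¬ (Q F).Adj v w → w = p ∨ w = q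

lemma few_map (φ : Q F ≃g Q F) {v : QV F} (h : Few v) : Few (φ v) := by
  obtain ⟨p, q, h⟩ := h
  refine ⟨φ p, φ q, fun w hw hvw => ?_⟩
  obtain ⟨w, rfl⟩ := φ.surjective w
  rw [φ.map_adj_iff] at hvw
  rcases h w (fun h' => hw (by rw [h'])) hvw with h | h
  · exact Or.inl (by rw [h])
  · exact Or.inr (by rw [h])

lemma few_map_iff (φ : Q F ≃g Q F) {v : QV F} : Few (φ v) ↔ Few v := by
  refine ⟨fun h => ?_, few_map φ⟩
  have := few_map φ.symm h
  simpa using this

lemma few_d (a : U) (x : F.edgeSet) (h) : Few (.d a x h) := by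
  refine ⟨.u a, .e x, fun w hw hvw => ?_⟩
  cases w with
  | u b => left; simpa using hvw
  | e y => right; simpa using hvw
  | d b y h' =>
    simp only [Q_d_d, not_not] at hvw
    obtain ⟨rfl, rfl⟩ := hvw
    exact absurd rfl hw
  | z => simp at hvw

lemma not_few_of_three {v p q r : QV F} (hp : p ≠ v) (hq : q ≠ v) (hr : r ≠ v)
    (hp' : ¬ (Q F).Adj v p) (hq' : ¬ (Q F).Adj v q) (hr' : ¬ (Q F).Adj v r)
    (hpq : p ≠ q) (hpr : p ≠ r) (hqr : q ≠ r) : ¬ Few v := by
  rintro ⟨s, t, h⟩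
  rcases h p hp hp' with h1 | h1 <;> rcases h q hq hq' with h2 | h2 <;>
    rcases h r hr hr' with h3 | h3 <;> simp_all

lemma exists_two (x : F.edgeSet) : ∃ a b : U, a ≠ b ∧ F.Adj a b ∧ (x : Sym2 U) = s(a, b) := by
  obtain ⟨x, hx⟩ := x
  induction x with
  | h a b => exact ⟨a, b, F.ne_of_adj hx, hx, rfl⟩

section

variable {x₁ x₂ x₃ : F.edgeSet} (h12 : x₁ ≠ x₂) (h13 : x₁ ≠ x₃) (h23 : x₂ ≠ x₃)

include h12 h13 h23

lemma not_few_z : ¬ Few (.z : QV F) :=
  not_few_of_three (p := .e x₁) (q := .e x₂) (r := .e x₃) (by simp) (by simp) (by simp)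
    (by simp) (by simp) (by simp) (by simpa using h12) (by simpa using h13) (by simpa using h23)

lemma not_few_u (a : U) : ¬ Few (.u a : QV F) :=
  not_few_of_three (p := .e x₁) (q := .e x₂) (r := .e x₃) (by simp) (by simp) (by simp)
    (by simp) (by simp) (by simp) (by simpa using h12) (by simpa using h13) (by simpa using h23)

omit h12 h13 h23 in
lemma not_few_e (x : F.edgeSet) : ¬ Few (.e x : QV F) := by
  obtain ⟨a, b, hab, -, -⟩ := exists_two x
  exact not_few_of_three (p := .u a) (q := .u b) (r := .z) (by simp) (by simp) (by simp)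
    (by simp) (by simp) (by simp) (by simpa using hab) (by simp) (by simp)

variable (φ : Q F ≃g Q F)

lemma q_map_z : φ .z = .z := by
  obtain ⟨a, b, hab, -, -⟩ := exists_two x₁
  have h1 : ¬ Few (φ .z) := by rw [few_map_iff]; exact not_few_z h12 h13 h23
  have h2 : ¬ Few (φ (.u a)) := by rw [few_map_iff]; exact not_few_u h12 h13 h23 a
  have h3 : ¬ Few (φ (.u b)) := by rw [few_map_iff]; exact not_few_u h12 h13 h23 b
  have h4 : (Q F).Adj (φ .z) (φ (.u a)) := by rw [φ.map_adj_iff]; simp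
  have h5 : (Q F).Adj (φ .z) (φ (.u b)) := by rw [φ.map_adj_iff]; simp
  have h6 : φ (.u a) ≠ φ (.u b) := fun h => hab (by simpa using φ.injective h)
  cases h : φ .z with
  | z => rfl
  | d c x h' => rw [h] at h1; exact absurd (few_d c x h') h1
  | e x =>
    rw [h] at h4
    cases h' : φ (.u a) with
    | d c y h'' => rw [h'] at h2; exact absurd (few_d c y h'') h2
    | u c => rw [h'] at h4; simp at h4
    | e c => rw [h'] at h4; simp at h4
    | z => rw [h'] at h4; simp at h4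
  | u x =>
    rw [h] at h4 h5
    exfalso
    have ha : φ (.u a) = .z := by
      cases h' : φ (.u a) with
      | d c y h'' => rw [h'] at h2; exact absurd (few_d c y h'') h2
      | u c => rw [h'] at h4; simp at h4
      | e c => rw [h'] at h4; simp at h4
      | z => rfl
    have hb : φ (.u b) = .z := by
      cases h' : φ (.u b) with
      | d c y h'' => rw [h'] at h3; exact absurd (few_d c y h'') h3
      | u c => rw [h'] at h5; simp at h5
      | e c => rw [h'] at h5; simp at h5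
      | z => rfl
    exact h6 (by rw [ha, hb])

lemma q_map_u (a : U) : ∃ b, φ (.u a) = .u b := by
  have h2 : ¬ Few (φ (.u a)) := by rw [few_map_iff]; exact not_few_u h12 h13 h23 a
  have h4 : (Q F).Adj (φ .z) (φ (.u a)) := by rw [φ.map_adj_iff]; simp
  rw [q_map_z h12 h13 h23] at h4
  cases h' : φ (.u a) with
  | d c y h'' => rw [h'] at h2; exact absurd (few_d c y h'') h2
  | u c => exact ⟨c, rfl⟩
  | e c => rw [h'] at h4; simp at h4
  | z => rw [h'] at h4; simp at h4

lemma q_map_e (x : F.edgeSet) : ∃ y, φ (.e x) = .e y := by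
  have h2 : ¬ Few (φ (.e x)) := by rw [few_map_iff]; exact not_few_e x
  have h4 : ¬ (Q F).Adj (φ .z) (φ (.e x)) := by rw [φ.map_adj_iff]; simp
  have h5 : φ .z ≠ φ (.e x) := fun h => by simpa using φ.injective h
  rw [q_map_z h12 h13 h23] at h4 h5
  cases h' : φ (.e x) with
  | d c y h'' => rw [h'] at h2; exact absurd (few_d c y h'') h2
  | u c => rw [h'] at h4; simp at h4
  | e c => exact ⟨c, rfl⟩
  | z => exact absurd h'.symm h5

lemma q_map_d (a : U) (x : F.edgeSet) (h) : ∃ b y h', φ (.d a x h) = .d b y h' := by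
  have h2 : Few (φ (.d a x h)) := by rw [few_map_iff]; exact few_d a x h
  cases h' : φ (.d a x h) with
  | d c y h'' => exact ⟨c, y, h'', rfl⟩
  | u c => rw [h'] at h2; exact absurd h2 (not_few_u h12 h13 h23 c)
  | e c => rw [h'] at h2; exact absurd h2 (not_few_e c)
  | z => rw [h'] at h2; exact absurd h2 (not_few_z h12 h13 h23)

lemma q_mem {a b : U} {x y : F.edgeSet} (hu : φ (.u a) = .u b) (he : φ (.e x) = .e y)
    (h : a ∈ (x : Sym2 U)) : b ∈ (y : Sym2 U) := by
  obtain ⟨c, w, h', hd⟩ := q_map_d h12 h13 h23 φ a x h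
  have h1 : ¬ (Q F).Adj (φ (.u a)) (φ (.d a x h)) := by rw [φ.map_adj_iff]; simp
  have h2 : ¬ (Q F).Adj (φ (.e x)) (φ (.d a x h)) := by rw [φ.map_adj_iff]; simp
  rw [hu, hd] at h1
  rw [he, hd] at h2
  simp only [Q_u_d, Q_e_d, ne_eq, not_not] at h1 h2
  rw [h1, h2]
  exact h'

lemma q_adj {a b a' b' : U} (ha : φ (.u a) = .u a') (hb : φ (.u b) = .u b')
    (h : F.Adj a b) : F.Adj a' b' := by
  obtain ⟨y, hy⟩ := q_map_e h12 h13 h23 φ ⟨s(a, b), h⟩
  have h1 : a' ∈ (y : Sym2 U) := q_mem h12 h13 h23 φ ha hy (by simp)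
  have h2 : b' ∈ (y : Sym2 U) := q_mem h12 h13 h23 φ hb hy (by simp)
  have hne : a' ≠ b' := by
    intro h'
    have : φ (.u a) = φ (.u b) := by rw [ha, hb, h']
    have : a = b := by simpa using φ.injective this
    exact F.ne_of_adj h this
  have h3 : (y : Sym2 U) = s(a', b') := (Sym2.mem_and_mem_iff hne).1 ⟨h1, h2⟩
  have h4 := y.2
  rw [h3] at h4
  exact h4

lemma q_surj : ∃ ψ : F ≃g F, qhom ψ = φ := by
  choose f hf using q_map_u h12 h13 h23 φ
  choose g hg using q_map_u h12 h13 h23 φ.symm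
  have hfg : ∀ a, f (g a) = a := by
    intro a
    have h1 : φ (φ.symm (.u a)) = .u a := by simp
    rw [hg, hf] at h1
    simpa using h1
  have hgf : ∀ a, g (f a) = a := by
    intro a
    have h1 : φ.symm (φ (.u a)) = .u a := by simp
    rw [hf, hg] at h1
    simpa using h1
  let ψ : F ≃g F :=
    { toFun := f
      invFun := g
      left_inv := hgf
      right_inv := hfg
      map_rel_iff' := by
        intro a b
        constructor
        · intro h
          have h1 := q_adj h12 h13 h23 φ.symm (hg (f a)) (hg (f b)) h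
          rwa [hgf, hgf] at h1
        · exact q_adj h12 h13 h23 φ (hf a) (hf b) }
  refine ⟨ψ, ?_⟩
  have he : ∀ x, φ (.e x) = .e (ψ.mapEdgeSet x) := by
    intro x
    obtain ⟨y, hy⟩ := q_map_e h12 h13 h23 φ x
    obtain ⟨a, b, hab, -, hx⟩ := exists_two x
    have h1 : f a ∈ (y : Sym2 U) := q_mem h12 h13 h23 φ (hf a) hy (by rw [hx]; simp)
    have h2 : f b ∈ (y : Sym2 U) := q_mem h12 h13 h23 φ (hf b) hy (by rw [hx]; simp)
    have hne : f a ≠ f b := fun h => hab (by rw [← hgf a, h, hgf])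
    have h3 : (y : Sym2 U) = s(f a, f b) := (Sym2.mem_and_mem_iff hne).1 ⟨h1, h2⟩
    have h4 : y = ψ.mapEdgeSet x := by
      apply Subtype.ext
      rw [h3]
      change s(f a, f b) = Sym2.map ψ (x : Sym2 U)
      rw [hx]
      rfl
    rw [hy, h4]
  ext x
  change qfun ψ x = φ x
  cases x with
  | u a => exact (hf a).symm
  | e x => exact (he x).symm
  | z => exact (q_map_z h12 h13 h23 φ).symm
  | d a x h =>
    obtain ⟨b, y, h', hd⟩ := q_map_d h12 h13 h23 φ a x h
    have h1 : ¬ (Q F).Adj (φ (.u a)) (φ (.d a x h)) := by rw [φ.map_adj_iff]; simp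
    have h2 : ¬ (Q F).Adj (φ (.e x)) (φ (.d a x h)) := by rw [φ.map_adj_iff]; simp
    rw [hf, hd] at h1
    rw [he, hd] at h2
    simp only [Q_u_d, Q_e_d, ne_eq, not_not] at h1 h2
    subst h1 h2
    rw [hd]
    rfl

/-- The coding graph of a graph with at least three edges has the same automorphism group. -/
lemma aut_Q : Nonempty ((Q F ≃g Q F) ≃* (F ≃g F)) :=
  ⟨(MulEquiv.ofBijective qhom
    ⟨qhom_injective, fun φ => q_surj h12 h13 h23 φ⟩).symm⟩

end

end coding


section representation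

/-- Data of two edges of `Y` outside a connected spanning graph of the vertex set `R`. -/
structure Two {V : Type} [LinearOrder V] (Y : SimpleGraph V) where
  R : Set V
  T : SimpleGraph R
  conn : T.Connected
  le : ∀ x y : R, T.Adj x y → Y.Adj x y
  a₁ : V
  b₁ : V
  a₂ : V
  b₂ : V
  ha₁ : a₁ ∈ R
  hb₁ : b₁ ∈ R
  ha₂ : a₂ ∈ R
  hb₂ : b₂ ∈ R
  lt₁ : a₁ < b₁
  lt₂ : a₂ < b₂
  adj₁ : Y.Adj a₁ b₁
  adj₂ : Y.Adj a₂ b₂
  not₁ : ¬ T.Adj ⟨a₁, ha₁⟩ ⟨b₁, hb₁⟩
  not₂ : ¬ T.Adj ⟨a₂, ha₂⟩ ⟨b₂, hb₂⟩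
  ne : ¬ (a₁ = a₂ ∧ b₁ = b₂)

variable {V : Type} [LinearOrder V] {Y : SimpleGraph V} (D : Two Y)

/-- The edge `a₁b₁` is subdivided `m` times and the edge `a₂b₂` is subdivided `n` times. -/
def len (m n : ℕ) (a b : V) : ℕ :=
  if a = D.a₁ ∧ b = D.b₁ then m else if a = D.a₂ ∧ b = D.b₂ then n else 0

lemma len₁ (m n : ℕ) : len D m n D.a₁ D.b₁ = m := by simp [len]

lemma len₂ (m n : ℕ) : len D m n D.a₂ D.b₂ = n := by
  have := D.ne
  unfold len
  rw [if_neg, if_pos ⟨rfl, rfl⟩]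
  rintro ⟨h1, h2⟩
  exact this ⟨h1.symm, h2.symm⟩

variable {m n : ℕ}

/-- The internal vertex `i` of the edge `a₁b₁`. -/
def px (i : ℕ) (h : i < m) : SubVertex Y (len D m n) :=
  .new D.a₁ D.b₁ i ⟨D.lt₁, D.adj₁, by rwa [len₁]⟩

/-- The internal vertex `i` of the edge `a₂b₂`. -/
def py (i : ℕ) (h : i < n) : SubVertex Y (len D m n) :=
  .new D.a₂ D.b₂ i ⟨D.lt₂, D.adj₂, by rwa [len₂]⟩

lemma new_cases {a b : V} {i : ℕ} (h : a < b ∧ Y.Adj a b ∧ i < len D m n a b) :
    (a = D.a₁ ∧ b = D.b₁ ∧ i < m) ∨ (a = D.a₂ ∧ b = D.b₂ ∧ i < n) := by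
  obtain ⟨-, -, h⟩ := h
  unfold len at h
  split_ifs at h with h1 h2
  · exact Or.inl ⟨h1.1, h1.2, h⟩
  · exact Or.inr ⟨h2.1, h2.2, h⟩
  · exact absurd h (Nat.not_lt_zero _)

lemma cases_vertex (w : SubVertex Y (len D m n)) :
    (∃ a, w = .old a) ∨ (∃ i h, w = px D i h) ∨ (∃ i h, w = py D i h) := by
  cases w with
  | old a => exact Or.inl ⟨a, rfl⟩
  | new a b i h =>
    rcases new_cases D h with ⟨rfl, rfl, h'⟩ | ⟨rfl, rfl, h'⟩
    · exact Or.inr (Or.inl ⟨i, h', rfl⟩)
    · exact Or.inr (Or.inr ⟨i, h', rfl⟩)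

/-- The subdivided graph. -/
abbrev H (m n : ℕ) : SimpleGraph (SubVertex Y (len D m n)) := subdivision Y (len D m n)

/-- Reachability inside the vertex set `s`. -/
def Rch (s : Set (SubVertex Y (len D m n))) (u v : SubVertex Y (len D m n)) : Prop :=
  ∃ (hu : u ∈ s) (hv : v ∈ s), ((H D m n).induce s).Reachable ⟨u, hu⟩ ⟨v, hv⟩

variable {D}

lemma Rch.refl {s : Set (SubVertex Y (len D m n))} {u} (hu : u ∈ s) : Rch D s u u :=
  ⟨hu, hu, SimpleGraph.Reachable.refl _⟩

lemma Rch.symm {s : Set (SubVertex Y (len D m n))} {u v} (h : Rch D s u v) : Rch D s v u := by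
  obtain ⟨hu, hv, h⟩ := h
  exact ⟨hv, hu, h.symm⟩

lemma Rch.trans {s : Set (SubVertex Y (len D m n))} {u v w} (h : Rch D s u v)
    (h' : Rch D s v w) : Rch D s u w := by
  obtain ⟨hu, hv, h⟩ := h
  obtain ⟨hv', hw, h'⟩ := h'
  exact ⟨hu, hw, h.trans h'⟩

lemma Rch.step {s : Set (SubVertex Y (len D m n))} {u v} (h : (H D m n).Adj u v)
    (hu : u ∈ s) (hv : v ∈ s) : Rch D s u v := by
  refine ⟨hu, hv, SimpleGraph.Adj.reachable ?_⟩
  simpa using h

lemma Rch.path {N : ℕ} {s : Set (SubVertex Y (len D m n))}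
    (p : ∀ i, i < N → SubVertex Y (len D m n))
    (hp : ∀ i (h : i + 1 < N), (H D m n).Adj (p i (Nat.lt_of_succ_lt h)) (p (i + 1) h))
    (a k : ℕ) (h : a + k < N) (hs : ∀ j (hj : j < N), a ≤ j → j ≤ a + k → p j hj ∈ s) :
    Rch D s (p a (by omega)) (p (a + k) h) := by
  induction k with
  | zero => exact Rch.refl (hs a (by omega) le_rfl le_rfl)
  | succ k ih =>
    have h1 := ih (by omega) (fun j hj h1 h2 => hs j hj h1 (by omega))
    refine h1.trans (Rch.step (hp (a + k) h) ?_ ?_)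
    · exact hs _ _ (by omega) (by omega)
    · exact hs _ _ (by omega) (by omega)

lemma Rch.path' {N : ℕ} {s : Set (SubVertex Y (len D m n))}
    (p : ∀ i, i < N → SubVertex Y (len D m n))
    (hp : ∀ i (h : i + 1 < N), (H D m n).Adj (p i (Nat.lt_of_succ_lt h)) (p (i + 1) h))
    {a b : ℕ} (hab : a ≤ b) (h : b < N) (hs : ∀ j (hj : j < N), a ≤ j → j ≤ b → p j hj ∈ s) :
    Rch D s (p a (by omega)) (p b h) := by
  obtain ⟨k, rfl⟩ := Nat.exists_eq_add_of_le hab
  exact Rch.path p hp a k h hs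

/-- A path with one point missing, both of whose ends are attached to `u`. -/
lemma Rch.around {N : ℕ} {s : Set (SubVertex Y (len D m n))}
    (p : ∀ i, i < N → SubVertex Y (len D m n))
    (hp : ∀ i (h : i + 1 < N), (H D m n).Adj (p i (Nat.lt_of_succ_lt h)) (p (i + 1) h))
    (c : ℕ) (hs : ∀ j (hj : j < N), p j hj ∈ s ↔ j ≠ c) {u v w : SubVertex Y (len D m n)}
    (hv : Rch D s u v) (hw : Rch D s u w)
    (hv' : ∀ h : 0 < N, (H D m n).Adj v (p 0 h))
    (hw' : ∀ h : N - 1 < N, (H D m n).Adj w (p (N - 1) h))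
    {j : ℕ} (hj : j < N) (hjs : p j hj ∈ s) : Rch D s u (p j hj) := by
  have hne : j ≠ c := (hs j hj).1 hjs
  have hvs : v ∈ s := hv.2.1
  have hws : w ∈ s := hw.2.1
  rcases lt_or_gt_of_ne hne with hlt | hgt
  · refine (hv.trans (Rch.step (hv' (by omega)) hvs ((hs 0 _).2 (by omega)))).trans
      (Rch.path' p hp (Nat.zero_le j) hj ?_)
    intro i hi _ h2
    exact (hs i hi).2 (by omega)
  · refine (hw.trans (Rch.step (hw' (by omega)) hws ((hs (N - 1) _).2 (by omega)))).trans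
      (Rch.path' p hp (show j ≤ N - 1 by omega) (by omega) ?_).symm
    intro i hi h1 _
    exact (hs i hi).2 (by omega)

lemma px_adj (i : ℕ) (h : i + 1 < m) :
    (H D m n).Adj (px D i (Nat.lt_of_succ_lt h)) (px D (i + 1) h) := by
  simp [H, subdivision, Step, px]

lemma py_adj (i : ℕ) (h : i + 1 < n) :
    (H D m n).Adj (py D i (Nat.lt_of_succ_lt h)) (py D (i + 1) h) := by
  simp [H, subdivision, Step, py]

lemma adj_a₁ (h : 0 < m) : (H D m n).Adj (.old D.a₁) (px D 0 h) := by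
  simp [H, subdivision, Step, px]

lemma adj_b₁ (h : m - 1 < m) : (H D m n).Adj (.old D.b₁) (px D (m - 1) h) := by
  have : m - 1 + 1 = m := by omega
  simp [H, subdivision, Step, px, len₁, this]

lemma adj_a₂ (h : 0 < n) : (H D m n).Adj (.old D.a₂) (py D 0 h) := by
  simp [H, subdivision, Step, py]

lemma adj_b₂ (h : n - 1 < n) : (H D m n).Adj (.old D.b₂) (py D (n - 1) h) := by
  have : n - 1 + 1 = n := by omega
  simp [H, subdivision, Step, py, len₂, this]

lemma adj_old {x y : D.R} (h : D.T.Adj x y) : (H D m n).Adj (.old x) (.old y) := by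
  have hY := D.le x y h
  have hne : (x : V) ≠ y := Y.ne_of_adj hY
  have key : ∀ x y : D.R, D.T.Adj x y → len D m n x y = 0 := by
    intro x y h
    unfold len
    rw [if_neg, if_neg]
    · rintro ⟨h1, h2⟩
      apply D.not₂
      have e1 : x = ⟨D.a₂, D.ha₂⟩ := Subtype.ext h1
      have e2 : y = ⟨D.b₂, D.hb₂⟩ := Subtype.ext h2
      rwa [e1, e2] at h
    · rintro ⟨h1, h2⟩
      apply D.not₁
      have e1 : x = ⟨D.a₁, D.ha₁⟩ := Subtype.ext h1
      have e2 : y = ⟨D.b₁, D.hb₁⟩ := Subtype.ext h2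
      rwa [e1, e2] at h
  simp only [H, subdivision, SimpleGraph.fromRel_adj, Step]
  refine ⟨by simpa using hne, ?_⟩
  rcases lt_or_gt_of_ne hne with hlt | hgt
  · exact Or.inl ⟨hlt, hY, key x y h⟩
  · exact Or.inr ⟨hgt, hY.symm, key y x h.symm⟩

lemma rch_old {s : Set (SubVertex Y (len D m n))} (hs : ∀ a ∈ D.R, .old a ∈ s) (x y : D.R) :
    Rch D s (.old x) (.old y) := by
  obtain ⟨w⟩ := D.conn.preconnected x y
  induction w with
  | nil => exact Rch.refl (hs _ (Subtype.property _))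
  | cons h _ ih =>
    exact (Rch.step (adj_old h) (hs _ (Subtype.property _)) (hs _ (Subtype.property _))).trans ih

lemma connected_of_Rch {s : Set (SubVertex Y (len D m n))} (u : SubVertex Y (len D m n))
    (hu : u ∈ s) (h : ∀ v ∈ s, Rch D s u v) :
    ((⊤ : (H D m n).Subgraph).induce s).Connected := by
  have key : ((H D m n).induce s).Connected := by
    rw [SimpleGraph.connected_iff_exists_forall_reachable]
    refine ⟨⟨u, hu⟩, fun w => ?_⟩
    obtain ⟨_, _, h'⟩ := h w.1 w.2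
    exact h'
  rw [SimpleGraph.Subgraph.connected_iff']
  rw [SimpleGraph.induce_eq_coe_induce_top] at key
  exact key

variable {U : Type u} {F : SimpleGraph U} (e₁ : U ≃ Fin m) (e₂ : F.edgeSet ≃ Fin n)

/-- The vertex sets of the subgraphs. -/
def mem : QV F → SubVertex Y (len D m n) → Prop
  | .u g, .new a b i _ => a = D.a₁ ∧ b = D.b₁ ∧ i = e₁ g
  | .e x, .new a b i _ => a = D.a₂ ∧ b = D.b₂ ∧ i = e₂ x
  | .z, .new a b _ _ => a = D.a₁ ∧ b = D.b₁
  | .d _ _ _, .old a => a ∈ D.R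
  | .d g x _, .new a b i _ => (a = D.a₁ ∧ b = D.b₁ ∧ i ≠ e₁ g) ∨ (a = D.a₂ ∧ b = D.b₂ ∧ i ≠ e₂ x)
  | _, _ => False

lemma mem_u_old (g : U) (a : V) : ¬ mem (D := D) e₁ e₂ (.u g) (.old a) := fun h => h
lemma mem_e_old (x : F.edgeSet) (a : V) : ¬ mem (D := D) e₁ e₂ (.e x) (.old a) := fun h => h
lemma mem_z_old (a : V) : ¬ mem (D := D) e₁ e₂ .z (.old a) := fun h => h
lemma mem_d_old (g : U) (x : F.edgeSet) (h) (a : V) :
    mem (D := D) e₁ e₂ (.d g x h) (.old a) ↔ a ∈ D.R := Iff.rfl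

lemma mem_u_px (g : U) (i : ℕ) (h : i < m) :
    mem (D := D) e₁ e₂ (.u g) (px D i h) ↔ i = e₁ g := by
  change (D.a₁ = D.a₁ ∧ D.b₁ = D.b₁ ∧ i = e₁ g) ↔ _
  simp

lemma mem_u_py (g : U) (i : ℕ) (h : i < n) :
    ¬ mem (D := D) e₁ e₂ (.u g) (py D i h) := by
  change ¬ (D.a₂ = D.a₁ ∧ D.b₂ = D.b₁ ∧ i = e₁ g)
  rintro ⟨h1, h2, -⟩
  exact D.ne ⟨h1.symm, h2.symm⟩

lemma mem_e_px (g : F.edgeSet) (i : ℕ) (h : i < m) :
    ¬ mem (D := D) e₁ e₂ (.e g) (px D i h) := by
  change ¬ (D.a₁ = D.a₂ ∧ D.b₁ = D.b₂ ∧ i = e₂ g)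
  rintro ⟨h1, h2, -⟩
  exact D.ne ⟨h1, h2⟩

lemma mem_e_py (g : F.edgeSet) (i : ℕ) (h : i < n) :
    mem (D := D) e₁ e₂ (.e g) (py D i h) ↔ i = e₂ g := by
  change (D.a₂ = D.a₂ ∧ D.b₂ = D.b₂ ∧ i = e₂ g) ↔ _
  simp

lemma mem_z_px (i : ℕ) (h : i < m) : mem (D := D) e₁ e₂ .z (px D i h) := by
  change D.a₁ = D.a₁ ∧ D.b₁ = D.b₁
  simp

lemma mem_z_py (i : ℕ) (h : i < n) : ¬ mem (D := D) e₁ e₂ .z (py D i h) := by
  change ¬ (D.a₂ = D.a₁ ∧ D.b₂ = D.b₁)
  rintro ⟨h1, h2⟩
  exact D.ne ⟨h1.symm, h2.symm⟩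

lemma mem_d_px (g : U) (x : F.edgeSet) (h') (i : ℕ) (h : i < m) :
    mem (D := D) e₁ e₂ (.d g x h') (px D i h) ↔ i ≠ e₁ g := by
  change ((D.a₁ = D.a₁ ∧ D.b₁ = D.b₁ ∧ i ≠ e₁ g) ∨ (D.a₁ = D.a₂ ∧ D.b₁ = D.b₂ ∧ i ≠ e₂ x)) ↔ _
  have := D.ne
  tauto

lemma mem_d_py (g : U) (x : F.edgeSet) (h') (i : ℕ) (h : i < n) :
    mem (D := D) e₁ e₂ (.d g x h') (py D i h) ↔ i ≠ e₂ x := by
  change ((D.a₂ = D.a₁ ∧ D.b₂ = D.b₁ ∧ i ≠ e₁ g) ∨ (D.a₂ = D.a₂ ∧ D.b₂ = D.b₂ ∧ i ≠ e₂ x)) ↔ _
  have := D.ne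
  have h1 : ¬ (D.a₂ = D.a₁ ∧ D.b₂ = D.b₁) := fun h => this ⟨h.1.symm, h.2.symm⟩
  tauto

lemma mem_of_rel {x y : QV F} (h : QRel F x y) :
    ∃ w, mem (D := D) e₁ e₂ x w ∧ mem (D := D) e₁ e₂ y w := by
  cases x with
  | u g =>
    have h1 := (mem_u_px (D := D) e₁ e₂ g (e₁ g) (e₁ g).2).2 rfl
    cases y with
    | z => exact ⟨_, h1, mem_z_px e₁ e₂ _ _⟩
    | d b x h' =>
      have h2 : g ≠ b := h
      exact ⟨_, h1, (mem_d_px e₁ e₂ b x h' _ _).2 (by simpa [Fin.val_inj] using h2)⟩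
    | u _ => exact absurd h (by simp [QRel])
    | e _ => exact absurd h (by simp [QRel])
  | e g =>
    have h1 := (mem_e_py (D := D) e₁ e₂ g (e₂ g) (e₂ g).2).2 rfl
    cases y with
    | d b x h' =>
      have h2 : g ≠ x := h
      exact ⟨_, h1, (mem_d_py e₁ e₂ b x h' _ _).2 (by simpa [Fin.val_inj] using h2)⟩
    | z => exact absurd h (by simp [QRel])
    | u _ => exact absurd h (by simp [QRel])
    | e _ => exact absurd h (by simp [QRel])
  | z => cases y <;> exact absurd h (by simp [QRel])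
  | d b x h' =>
    cases y with
    | z =>
      obtain ⟨c, c', hc, -, -⟩ := exists_two x
      have : ∃ k, k ≠ b := by
        by_cases hcb : c = b
        · exact ⟨c', fun h => hc (by rw [hcb, h])⟩
        · exact ⟨c, hcb⟩
      obtain ⟨k, hk⟩ := this
      exact ⟨px D (e₁ k) (e₁ k).2, (mem_d_px e₁ e₂ b x h' _ _).2
        (by simpa [Fin.val_inj] using hk), mem_z_px e₁ e₂ _ _⟩
    | d b' x' h'' => exact ⟨.old D.a₁, D.ha₁, D.ha₁⟩
    | u _ => exact absurd h (by simp [QRel])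
    | e _ => exact absurd h (by simp [QRel])

lemma adj_iff_mem {x y : QV F} (hxy : x ≠ y) :
    (Q F).Adj x y ↔ ∃ w, mem (D := D) e₁ e₂ x w ∧ mem (D := D) e₁ e₂ y w := by
  constructor
  · intro h
    rw [Q, SimpleGraph.fromRel_adj] at h
    rcases h.2 with h | h
    · exact mem_of_rel e₁ e₂ h
    · obtain ⟨w, h1, h2⟩ := mem_of_rel (D := D) e₁ e₂ h
      exact ⟨w, h2, h1⟩
  · rintro ⟨w, hx, hy⟩
    rcases cases_vertex D w with ⟨a, rfl⟩ | ⟨i, hi, rfl⟩ | ⟨i, hi, rfl⟩
    · cases x <;> cases y <;> simp_all [mem_u_old, mem_e_old, mem_z_old, mem_d_old]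
    · cases x <;> cases y <;>
        simp_all [mem_u_px, mem_e_px, mem_z_px, mem_d_px, Fin.val_inj]
    · cases x <;> cases y <;>
        simp_all [mem_u_py, mem_e_py, mem_z_py, mem_d_py, Fin.val_inj]

lemma connected_mem (hm : 0 < m) (x : QV F) :
    ((⊤ : (H D m n).Subgraph).induce {w | mem e₁ e₂ x w}).Connected := by
  cases x with
  | u g =>
    refine connected_of_Rch (px D (e₁ g) (e₁ g).2)
      (by exact (mem_u_px e₁ e₂ g _ (e₁ g).2).2 rfl) ?_
    intro v hv
    have : v = px D (e₁ g) (e₁ g).2 := by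
      rcases cases_vertex D v with ⟨a, rfl⟩ | ⟨i, hi, rfl⟩ | ⟨i, hi, rfl⟩
      · exact absurd hv (mem_u_old (D := D) e₁ e₂ g a)
      · have := (mem_u_px e₁ e₂ g i hi).1 hv
        subst this
        rfl
      · exact absurd hv (mem_u_py e₁ e₂ g i hi)
    rw [this] at hv ⊢
    exact Rch.refl hv
  | e x =>
    refine connected_of_Rch (py D (e₂ x) (e₂ x).2)
      (by exact (mem_e_py e₁ e₂ x _ (e₂ x).2).2 rfl) ?_
    intro v hv
    have : v = py D (e₂ x) (e₂ x).2 := by
      rcases cases_vertex D v with ⟨a, rfl⟩ | ⟨i, hi, rfl⟩ | ⟨i, hi, rfl⟩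
      · exact absurd hv (mem_e_old (D := D) e₁ e₂ x a)
      · exact absurd hv (mem_e_px e₁ e₂ x i hi)
      · have := (mem_e_py e₁ e₂ x i hi).1 hv
        subst this
        rfl
    rw [this] at hv ⊢
    exact Rch.refl hv
  | z =>
    refine connected_of_Rch (px D 0 hm) (by exact mem_z_px e₁ e₂ 0 hm) ?_
    intro v hv
    rcases cases_vertex D v with ⟨a, rfl⟩ | ⟨i, hi, rfl⟩ | ⟨i, hi, rfl⟩
    · exact absurd hv (mem_z_old (D := D) e₁ e₂ a)
    · exact Rch.path' (px D) px_adj (Nat.zero_le i) hi (fun j hj _ _ => mem_z_px e₁ e₂ j hj)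
    · exact absurd hv (mem_z_py e₁ e₂ i hi)
  | d g x h =>
    have hold : ∀ a : D.R, Rch D {w | mem e₁ e₂ (.d g x h) w} (.old D.a₁) (.old a) :=
      fun a => rch_old (fun a ha => ha) ⟨D.a₁, D.ha₁⟩ a
    refine connected_of_Rch (.old D.a₁) D.ha₁ ?_
    intro v hv
    rcases cases_vertex D v with ⟨a, rfl⟩ | ⟨i, hi, rfl⟩ | ⟨i, hi, rfl⟩
    · exact hold ⟨a, hv⟩
    · exact Rch.around (px D) px_adj (e₁ g) (fun j hj => mem_d_px e₁ e₂ g x h j hj)
        (hold ⟨D.a₁, D.ha₁⟩) (hold ⟨D.b₁, D.hb₁⟩) adj_a₁ adj_b₁ hi hv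
    · exact Rch.around (py D) py_adj (e₂ x) (fun j hj => mem_d_py e₁ e₂ g x h j hj)
        (hold ⟨D.a₂, D.ha₂⟩) (hold ⟨D.b₂, D.hb₂⟩) adj_a₂ adj_b₂ hi hv

include D e₁ e₂ in
lemma isIntersectionGraph (hm : 0 < m) : IsIntersectionGraphOver Y (Q F) := by
  refine ⟨len D m n, fun x => (⊤ : (H D m n).Subgraph).induce {w | mem e₁ e₂ x w},
    connected_mem e₁ e₂ hm, ?_⟩
  intro x y hxy
  rw [adj_iff_mem (D := D) e₁ e₂ hxy]
  rfl

end representation

section cycles

variable {V : Type} [LinearOrder V] {Y : SimpleGraph V}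

/-- An edge of `Y` inside `R` outside `T`, in increasing order. -/
lemma ordered_edge (Z : Y.Subgraph) (T : SimpleGraph Z.verts) (x : Sym2 Z.verts)
    (hx : x ∈ Z.coe.edgeSet) (hx' : x ∉ T.edgeSet) :
    ∃ a b : Z.verts, (a : V) < b ∧ Y.Adj a b ∧ ¬ T.Adj a b ∧ x = s(a, b) := by
  induction x with
  | h a b =>
    have h1 : Z.Adj a b := by simpa using hx
    have h2 : Y.Adj a b := Z.adj_sub h1
    have h3 : ¬ T.Adj a b := by simpa using hx'
    rcases lt_or_gt_of_ne (Y.ne_of_adj h2) with h | h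
    · exact ⟨a, b, h, h2, h3, rfl⟩
    · exact ⟨b, a, h, h2.symm, fun h' => h3 h'.symm, Sym2.eq_swap⟩

/-- A connected subgraph with more edges than vertices gives the data `Two`. -/
lemma exists_Two [Finite V] (Z : Y.Subgraph) (hZ : Z.Connected)
    (hcard : Z.verts.ncard < Z.edgeSet.ncard) : Nonempty (Two Y) := by
  classical
  have hc : Z.coe.Connected := hZ.coe
  obtain ⟨T, hTle, hT⟩ := hc.exists_isTree_le
  have : Fintype Z.verts := Fintype.ofFinite _
  have h1 := hT.card_edgeFinset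
  have h2 : T.edgeSet.ncard + 1 = Z.verts.ncard := by
    rw [Set.ncard_eq_toFinset_card', Set.ncard_eq_toFinset_card', Set.toFinset_card Z.verts, ← h1]
    rfl
  have h3 : Z.edgeSet.ncard ≤ Z.coe.edgeSet.ncard := by
    rw [← SimpleGraph.Subgraph.image_coe_edgeSet_coe]
    exact Set.ncard_image_le (Set.toFinite _)
  have h4 : 1 < (Z.coe.edgeSet \ T.edgeSet).ncard := by
    have := Set.le_ncard_sdiff T.edgeSet Z.coe.edgeSet (Set.toFinite _)
    omega
  obtain ⟨x, y, hx, hy, hxy⟩ := (Set.one_lt_ncard_iff (Set.toFinite _)).1 h4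
  obtain ⟨a, b, hab, hY, hT1, rfl⟩ := ordered_edge Z T x hx.1 hx.2
  obtain ⟨a', b', hab', hY', hT1', rfl⟩ := ordered_edge Z T y hy.1 hy.2
  exact ⟨{
    R := Z.verts
    T := T
    conn := hT.connected
    le := fun x y h => by
      have : Z.coe.Adj x y := hTle h
      exact Z.adj_sub this
    a₁ := a
    b₁ := b
    a₂ := a'
    b₂ := b'
    ha₁ := a.2
    hb₁ := b.2
    ha₂ := a'.2
    hb₂ := b'.2
    lt₁ := hab
    lt₂ := hab'
    adj₁ := hY
    adj₂ := hY'
    not₁ := hT1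
    not₂ := hT1'
    ne := by
      rintro ⟨h1, h2⟩
      apply hxy
      rw [Subtype.ext h1, Subtype.ext h2] }⟩

end cycles

/-- `G(Y)` is universal: every finite group is the automorphism group of a finite graph
in `G(Y)`. -/
def Universal {V : Type} [LinearOrder V] (Y : SimpleGraph V) : Prop :=
  ∀ (Γ : Type u) [Group Γ] [Finite Γ],
    ∃ (U : Type u) (_ : Finite U) (G : SimpleGraph U),
      IsIntersectionGraphOver Y G ∧ Nonempty ((G ≃g G) ≃* Γ)

/-- Every finite group is the automorphism group of a finite graph which has at least three edges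
or is a single vertex. -/
lemma exists_graph (Γ : Type u) [Group Γ] [Finite Γ] [Nontrivial Γ] :
    ∃ (U : Type u) (_ : Finite U) (F : SimpleGraph U) (x₁ x₂ x₃ : F.edgeSet),
      x₁ ≠ x₂ ∧ x₁ ≠ x₃ ∧ x₂ ≠ x₃ ∧ Nonempty ((F ≃g F) ≃* Γ) := by
  obtain ⟨n, ⟨e⟩⟩ := Finite.exists_equiv_fin Γ
  obtain ⟨k, hk⟩ := exists_ne (1 : Γ)
  refine ⟨Pt Γ n, ?_, X e, ⟨s(.z, .a1 1), X_z_a1 e 1⟩, ⟨s(.r, .r'), X_r_r' e⟩,
    ⟨s(.z, .a1 k), X_z_a1 e k⟩, ?_, ?_, ?_, aut_X e⟩
  · have f : Pt Γ n ≃ (Γ ⊕ Γ ⊕ (Γ × Γ) ⊕ Fin n ⊕ Fin 3) :=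
      { toFun := fun x => match x with
          | .a1 g => .inl g
          | .a2 g => .inr (.inl g)
          | .b g c => .inr (.inr (.inl (g, c)))
          | .t i => .inr (.inr (.inr (.inl i)))
          | .z => .inr (.inr (.inr (.inr 0)))
          | .r => .inr (.inr (.inr (.inr 1)))
          | .r' => .inr (.inr (.inr (.inr 2)))
        invFun := fun x => match x with
          | .inl g => .a1 g
          | .inr (.inl g) => .a2 g
          | .inr (.inr (.inl (g, c))) => .b g c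
          | .inr (.inr (.inr (.inl i))) => .t i
          | .inr (.inr (.inr (.inr 0))) => .z
          | .inr (.inr (.inr (.inr 1))) => .r
          | .inr (.inr (.inr (.inr 2))) => .r'
        left_inv := by rintro (_ | _ | _ | _ | _ | _ | _) <;> rfl
        right_inv := by
          rintro (_ | _ | _ | _ | i) <;> try rfl
          fin_cases i <;> rfl }
    exact Finite.of_equiv _ f.symm
  · intro h
    simpa using congrArg Subtype.val h
  · intro h
    have h1 : (1 : Γ) = k := by simpa using congrArg Subtype.val h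
    exact hk h1.symm
  · intro h
    simpa using congrArg Subtype.val h

lemma finite_QV {U : Type u} [Finite U] (F : SimpleGraph U) : Finite (QV F) := by
  have f : QV F ↪ (U ⊕ F.edgeSet ⊕ (U × F.edgeSet) ⊕ Unit) :=
    { toFun := fun x => match x with
        | .u a => .inl a
        | .e x => .inr (.inl x)
        | .d a x _ => .inr (.inr (.inl (a, x)))
        | .z => .inr (.inr (.inr ()))
      inj' := by
        rintro (_ | _ | _ | _) (_ | _ | _ | _) h <;> simp_all }
  exact Finite.of_injective f f.injective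

/-- Every finite graph `Y` with a connected subgraph having more edges than vertices has a
universal class `G(Y)`. -/
theorem universal_of_two_cycles {V : Type} [LinearOrder V] [Finite V] {Y : SimpleGraph V}
    (Z : Y.Subgraph) (hZ : Z.Connected) (hcard : Z.verts.ncard < Z.edgeSet.ncard) :
    Universal.{u} Y := by
  obtain ⟨D⟩ := exists_Two Z hZ hcard
  intro Γ _ _
  cases subsingleton_or_nontrivial Γ with
  | inl hs =>
    refine ⟨PUnit, inferInstance, ⊥, ?_, ?_⟩
    · refine ⟨fun _ _ => 0, fun _ => (subdivision Y _).singletonSubgraph (.old D.a₁), ?_, ?_⟩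
      · intro _
        exact SimpleGraph.Subgraph.singletonSubgraph_connected
      · intro x y hxy
        exact absurd (Subsingleton.elim x y) hxy
    · have : Unique Γ := ⟨⟨1⟩, fun _ => Subsingleton.elim _ _⟩
      have : Subsingleton ((⊥ : SimpleGraph PUnit) ≃g (⊥ : SimpleGraph PUnit)) :=
        ⟨fun f g => by ext x⟩
      have : Unique ((⊥ : SimpleGraph PUnit) ≃g (⊥ : SimpleGraph PUnit)) :=
        ⟨⟨1⟩, fun _ => Subsingleton.elim _ _⟩
      exact ⟨MulEquiv.ofUnique⟩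
  | inr hnt =>
    obtain ⟨U, hU, F, x₁, x₂, x₃, h12, h13, h23, ⟨f⟩⟩ := exists_graph Γ
    obtain ⟨g⟩ := aut_Q h12 h13 h23
    obtain ⟨m, ⟨e₁⟩⟩ := Finite.exists_equiv_fin U
    obtain ⟨n, ⟨e₂⟩⟩ := Finite.exists_equiv_fin F.edgeSet
    refine ⟨QV F, finite_QV F, Q F, isIntersectionGraph (D := D) e₁ e₂ ?_, ⟨g.trans f⟩⟩
    obtain ⟨a, _⟩ := exists_two x₁
    have := (e₁ a).2
    omega

/-- **Main theorem.** (1) There is a finite graph `Y` (for example `K₄`) with `G(Y)` universal.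
(2) More generally `G(Y)` is universal for every finite graph `Y` that has a connected subgraph `Z` with more edges than
vertices, that is, a component with two independent cycles. -/
theorem result :
    (∃ (k : ℕ) (Y : SimpleGraph (Fin k)), Universal.{u} Y) ∧
    ∀ (k : ℕ) (Y : SimpleGraph (Fin k)) (Z : Y.Subgraph), Z.Connected →
      Z.verts.ncard < Z.edgeSet.ncard → Universal.{u} Y := by
  have key : ∀ (k : ℕ) (Y : SimpleGraph (Fin k)) (Z : Y.Subgraph), Z.Connected →
      Z.verts.ncard < Z.edgeSet.ncard → Universal.{u} Y :=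
    fun k Y Z hZ hcard => universal_of_two_cycles Z hZ hcard
  refine ⟨⟨4, ⊤, key 4 ⊤ ⊤ ?_ ?_⟩, key⟩
  · rw [SimpleGraph.Subgraph.connected_iff']
    exact (SimpleGraph.Subgraph.topIso.connected_iff).2 SimpleGraph.connected_top
  · rw [SimpleGraph.Subgraph.edgeSet_top, SimpleGraph.Subgraph.verts_top, Set.ncard_univ,
      Nat.card_eq_fintype_card, Fintype.card_fin, Set.ncard_eq_toFinset_card',
      ← SimpleGraph.edgeFinset, SimpleGraph.card_edgeFinset_top_eq_card_choose_two]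
    decide

end Pool.Agent.Results.MP_f0827e_co.YGraphsTwoCycles
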